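import Pool.Agent.Q54.CU.KTh
import Pool.Agent.Q54.CU.Smo

/-!
# The Bass conjecture and smooth affine cubic hypersurfaces

Let `q_0, …, q_r` be polynomials of degree at most two in `M` variables with integral coefficients.
The cubic hypersurface `E : ∑ λ_j q_j(x) = 1` in the affine space of dimension `M + r + 1` over `ℤ`
(`hypO q 1`) is smooth over `ℤ` and regular. We show that the conjecture of Bass on the finite
generation of the groups `K'_n(X)` of all regular schemes `X` of finite type over `ℤ`, and its
generalization to all schemes of finite type, are equivalent to the finite generation of the groups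
`K_n(E)` of these smooth affine cubic hypersurfaces; and that the groups `K'_n(X)` with `n ≤ N` of
all schemes of finite type are finitely generated if the groups `K_n(E)` with `n ≤ N + 1` are.

Proof: each affine scheme of finite type over `ℤ` is a closed subscheme `V` of an affine space given
by equations `q_j = 0` of degree at most two, and the projection of `E` to the space with
coordinates `x` is an affine bundle over the complement of `V`.
-/

namespace Pool.Agent.Results.MP_e17fa799_al.SmoothAffineCubics

open Q54.CU CategoryTheory AlgebraicGeometry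

/-- **The conjecture of Bass is equivalent to its case of smooth affine cubic hypersurfaces over
`ℤ`.** -/
theorem result (G : ℕ → SchZ → Type) [∀ n X, AddCommGroup (G n X)] (hG : IsKPrime G) :
    List.TFAE
      [∀ X : SchZ, IsFT X → IsRegularSch X.left → ∀ n, AddGroup.FG (G n X),
        ∀ X : SchZ, IsFT X → ∀ n, AddGroup.FG (G n X),
        ∀ (M r : ℕ) (q : Fin (r + 1) → MvPolynomial (Fin M) ℤ), (∀ j, (q j).totalDegree ≤ 2) →
          ∀ n, AddGroup.FG (G n (hypO q 1))] ∧
    (∀ N : ℕ, (∀ (M r : ℕ) (q : Fin (r + 1) → MvPolynomial (Fin M) ℤ),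
        (∀ j, (q j).totalDegree ≤ 2) → ∀ n ≤ N + 1, AddGroup.FG (G n (hypO q 1))) →
      ∀ X : SchZ, IsFT X → ∀ n ≤ N, AddGroup.FG (G n X)) ∧
    ∀ (M r : ℕ) (q : Fin (r + 1) → MvPolynomial (Fin M) ℤ), (∀ j, (q j).totalDegree ≤ 2) →
      IsFT (hypO q 1) ∧ IsRegularSch (hypO q 1).left ∧ Smooth (hypO q 1).hom ∧
        (hypPoly q 1).totalDegree ≤ 3 := by
  have hreg : ∀ (M r : ℕ) (q : Fin (r + 1) → MvPolynomial (Fin M) ℤ),
      IsRegularSch (hypO q 1).left := fun M r q => regular_hyp q
  refine ⟨?_, fun N h X hX => kprime_step hG N h X hX, fun M r q hq =>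
    ⟨isFT_hypO q 1, hreg M r q, smooth_hyp q, totalDegree_hypPoly q 1 hq⟩⟩
  tfae_have 1 → 3 := fun h M r q _ n => h _ (isFT_hypO q 1) (hreg M r q) n
  tfae_have 3 → 2 := fun h X hX n =>
    kprime_step hG n (fun M r q hq m _ => h M r q hq m) X hX n le_rfl
  tfae_have 2 → 1 := fun h X hX _ n => h X hX n
  tfae_finish

end Pool.Agent.Results.MP_e17fa799_al.SmoothAffineCubics
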